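import Pool.Agent.H261R3.LD.Lower
import Pool.Agent.H261R3.LD.Trans

set_option autoImplicit false

/-! # The diameters `diam_c (Lip_1 (B^n(R) → S))` need not stay bounded when
`H_i (S; ℝ) = 0` for `1 ≤ i ≤ n`

For every `n ≥ 1` the closed `(n+2)`-manifold `S = (S¹ × S^{n+1}) / ((t, u) ~ (-t, -u))`, with the
quotient of the product metric, satisfies `H_i (S; ℝ) = 0` for `1 ≤ i ≤ n`, and
`diam_c (Lip_1 (B^n(R) → S)) ≥ R` for all `c` and all `R > 0`. -/

namespace Pool.Agent.Results.MP_b33053_gt.Unbounded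

open Pool.Agent.H261R3.LD
open scoped NNReal

theorem result (n : ℕ) (hn : 1 ≤ n) :
    (CompactSpace (SS n) ∧ PathConnectedSpace (SS n) ∧ IsLengthSpace (SS n) ∧
      (∀ i, 1 ≤ i → i ≤ n → HomologyVanishes (SS n) i) ∧
      ∀ (c : ℝ≥0) (R : ℝ), 0 < R → ENNReal.ofReal R ≤ diamLip (EBall n R) (SS n) c 1) ∧
    ¬ ∀ (S : Type) [MetricSpace S] [CompactSpace S] [PathConnectedSpace S],
      IsLengthSpace S → (∀ i, 1 ≤ i → i ≤ n → HomologyVanishes S i) → BoundedDiameters n S := by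
  have h1 := compact_SS n
  have h2 := pathConnected_SS n
  have h3 := lengthSpace_SS n
  have h4 := homology_SS n
  refine ⟨⟨h1, h2, h3, h4, fun c R hR => diam_lower hn R hR c⟩, fun h => ?_⟩
  exact not_bounded (n := n) hn (h (SS n) h3 h4)

end Pool.Agent.Results.MP_b33053_gt.Unbounded
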